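import Pool.Agent.Helper67.KPG.St2

/-! Project KP, module BAS: basic facts on the grading. -/

set_option autoImplicit false
set_option linter.unusedSectionVars false

namespace Pool.Agent.Helper16.KPG

open Pool.Agent.Helper67.NO Pool.Agent.Helper52.KP Pool.Agent.Helper67.KPG

universe u

section

variable {g : Type u} [LieRing g] [LieAlgebra ℂ g] [FiniteDimensional ℂ g]
variable {e h f : g} {N : ℕ} {pr : ℤ → g →ₗ[ℂ] g}

private lemma idem (S : Sl e h f N pr) (j : ℤ) (x : g) : pr j (pr j x) = pr j x :=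
  S.fix j _ (S.eig j x)

private lemma pr_out (S : Sl e h f N pr) {j : ℤ} (hj : j ∉ Finset.Icc (-(N : ℤ)) N) (x : g) :
    pr j x = 0 := by
  have : (N : ℤ) < |j| := by
    by_contra h0
    rw [not_lt, abs_le] at h0
    exact hj (Finset.mem_Icc.2 h0)
  rw [S.top j this, LinearMap.zero_apply]

private lemma zero_of (S : Sl e h f N pr) {x : g} (hx : ∀ j, pr j x = 0) : x = 0 := by
  rw [← S.sum x]
  exact Finset.sum_eq_zero fun j _ => hx j

/-- the bracket of homogeneous elements -/
private lemma br_hom (S : Sl e h f N pr) (i j : ℤ) (x y : g) :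
    pr (i + j) ⁅pr i x, pr j y⁆ = ⁅pr i x, pr j y⁆ := by
  apply S.fix
  rw [leibniz_lie, S.eig, S.eig, lie_smul, smul_lie, ← add_smul]
  push_cast
  rfl

private lemma br_ne (S : Sl e h f N pr) {i j k : ℤ} (hk : k ≠ i + j) (x y : g) :
    pr k ⁅pr i x, pr j y⁆ = 0 := by
  rw [← br_hom S, S.orth _ _ hk]

private lemma br_zero (S : Sl e h f N pr) (k : ℤ) (x y : g)
    (H : ∀ a b, a + b = k → pr a x = 0 ∨ pr b y = 0) : pr k ⁅x, y⁆ = 0 := by
  have e1 : ⁅x, y⁆ = ∑ a ∈ Finset.Icc (-(N : ℤ)) N, ∑ b ∈ Finset.Icc (-(N : ℤ)) N,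
      ⁅pr a x, pr b y⁆ := by
    conv_lhs => rw [← S.sum x, ← S.sum y]
    rw [sum_lie]
    refine Finset.sum_congr rfl fun a _ => ?_
    rw [lie_sum]
  rw [e1, map_sum]
  refine Finset.sum_eq_zero fun a _ => ?_
  rw [map_sum]
  refine Finset.sum_eq_zero fun b _ => ?_
  by_cases hk : k = a + b
  · rcases H a b hk.symm with h0 | h0
    · rw [h0, zero_lie, map_zero]
    · rw [h0, lie_zero, map_zero]
  · exact br_ne S hk x y

private lemma kil_ne (S : Sl e h f N pr) {a b : ℤ} (hab : a + b ≠ 0) (x y : g) :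
    killingForm ℂ g (pr a x) (pr b y) = 0 := by
  have h1 : killingForm ℂ g ⁅pr a x, h⁆ (pr b y) = killingForm ℂ g (pr a x) ⁅h, pr b y⁆ :=
    LieModule.traceForm_apply_lie_apply ℂ g g _ _ _
  rw [← lie_skew, S.eig, S.eig, map_neg, LinearMap.neg_apply, map_smul, LinearMap.smul_apply,
    map_smul, smul_eq_mul, smul_eq_mul] at h1
  have h2 : ((a + b : ℤ) : ℂ) * killingForm ℂ g (pr a x) (pr b y) = 0 := by
    push_cast
    linear_combination -h1
  exact (mul_eq_zero.1 h2).resolve_left (by exact_mod_cast hab)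

private lemma kil_zero (S : Sl e h f N pr) (x y : g)
    (H : ∀ a b : ℤ, a + b = 0 → pr a x = 0 ∨ pr b y = 0) : killingForm ℂ g x y = 0 := by
  have e1 : killingForm ℂ g x y = ∑ a ∈ Finset.Icc (-(N : ℤ)) N,
      ∑ b ∈ Finset.Icc (-(N : ℤ)) N, killingForm ℂ g (pr a x) (pr b y) := by
    conv_lhs => rw [← S.sum x, ← S.sum y]
    rw [map_sum (killingForm ℂ g), LinearMap.sum_apply]
    refine Finset.sum_congr rfl fun a _ => ?_
    rw [map_sum]
  rw [e1]
  refine Finset.sum_eq_zero fun a _ => Finset.sum_eq_zero fun b _ => ?_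
  by_cases hk : a + b = 0
  · rcases H a b hk with h0 | h0
    · rw [h0, map_zero, LinearMap.zero_apply]
    · rw [h0, map_zero]
  · exact kil_ne S hk x y

private lemma prge' (S : Sl e h f N pr) (i j : ℤ) (x : g) (hij : j ≤ i) : pr i x ∈ ge pr j := by
  rw [mem_ge]
  intro k hk
  exact S.orth k i (by omega) x

private lemma prle' (S : Sl e h f N pr) (i j : ℤ) (x : g) (hij : i ≤ j) : pr i x ∈ le pr j := by
  rw [mem_le]
  intro k hk
  exact S.orth k i (by omega) x

private lemma brle' (S : Sl e h f N pr) (i j : ℤ) (x y : g) (hx : x ∈ le pr i)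
    (hy : y ∈ le pr j) : ⁅x, y⁆ ∈ le pr (i + j) := by
  rw [mem_le] at *
  intro k hk
  refine br_zero S k x y fun a b hab => ?_
  by_cases h0 : i < a
  · exact Or.inl (hx a h0)
  · exact Or.inr (hy b (by omega))

private lemma letop' (S : Sl e h f N pr) (j : ℤ) (hj : (N : ℤ) ≤ j) : le pr j = ⊤ := by
  rw [eq_top_iff]
  intro x _
  rw [mem_le]
  intro i hi
  exact pr_out S (by rw [Finset.mem_Icc]; omega) x

private lemma lebot' (S : Sl e h f N pr) (j : ℤ) (hj : j < -(N : ℤ)) : le pr j = ⊥ := by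
  rw [eq_bot_iff]
  intro x hx
  rw [mem_le] at hx
  rw [Submodule.mem_bot]
  refine zero_of S fun i => ?_
  by_cases hi : i ∈ Finset.Icc (-(N : ℤ)) N
  · rw [Finset.mem_Icc] at hi
    exact hx i (by omega)
  · exact pr_out S hi x

private lemma nil' (S : Sl e h f N pr) (u : g) (hu : u ∈ le pr (-1)) (k : ℕ) (j : ℤ) (x : g)
    (hx : x ∈ le pr j) : ((LieAlgebra.ad ℂ g u : Module.End ℂ g) ^ k) x ∈ le pr (j - k) := by
  induction k with
  | zero => simpa using hx
  | succ k ih =>
    rw [pow_succ', Module.End.mul_apply, LieAlgebra.ad_apply]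
    have h1 := brle' S _ _ _ _ hu ih
    have e1 : (-1 : ℤ) + (j - (k : ℤ)) = j - ((k + 1 : ℕ) : ℤ) := by push_cast; ring
    rw [e1] at h1
    exact h1

private lemma stab' (S : Sl e h f N pr) (Q : Submodule ℂ g) (hQ : ∀ x ∈ Q, ⁅h, x⁆ ∈ Q) (x : g)
    (hx : x ∈ Q) (i : ℤ) : pr i x ∈ Q := by
  classical
  by_cases hi : i ∈ Finset.Icc (-(N : ℤ)) N
  swap
  · rw [pr_out S hi]
    exact Q.zero_mem
  let A : Module.End ℂ g := LieAlgebra.ad ℂ g h
  have hA : ∀ (P : Polynomial ℂ) (y : g), y ∈ Q → Polynomial.aeval A P y ∈ Q := by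
    intro P
    induction P using Polynomial.induction_on with
    | C a =>
      intro y hy
      rw [Polynomial.aeval_C, Module.algebraMap_end_apply]
      exact Q.smul_mem _ hy
    | add p q hp hq =>
      intro y hy
      rw [map_add, LinearMap.add_apply]
      exact Q.add_mem (hp y hy) (hq y hy)
    | monomial n a ih =>
      intro y hy
      rw [pow_succ, ← mul_assoc, map_mul, Polynomial.aeval_X, Module.End.mul_apply]
      exact ih _ (hQ y hy)
  have hE : ∀ (P : Polynomial ℂ) (j : ℤ), Polynomial.aeval A P (pr j x) =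
      P.eval (j : ℂ) • pr j x := by
    intro P j
    by_cases h0 : pr j x = 0
    · rw [h0, map_zero, smul_zero]
    · exact Module.End.aeval_apply_of_hasEigenvector
        ⟨Module.End.mem_eigenspace_iff.2 (S.eig j x), h0⟩
  let R : Polynomial ℂ := ∏ j ∈ (Finset.Icc (-(N : ℤ)) N).erase i,
    (Polynomial.X - Polynomial.C (j : ℂ))
  have hR0 : R.eval (i : ℂ) ≠ 0 := by
    simp only [R]
    rw [Polynomial.eval_prod]
    refine Finset.prod_ne_zero_iff.2 fun j hj => ?_
    rw [Polynomial.eval_sub, Polynomial.eval_X, Polynomial.eval_C, sub_ne_zero]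
    exact_mod_cast (Finset.ne_of_mem_erase hj).symm
  have hR1 : ∀ j ∈ Finset.Icc (-(N : ℤ)) N, j ≠ i → R.eval (j : ℂ) = 0 := by
    intro j hj hji
    simp only [R]
    rw [Polynomial.eval_prod]
    refine Finset.prod_eq_zero (Finset.mem_erase.2 ⟨hji, hj⟩) ?_
    simp
  have h1 : Polynomial.aeval A R x = R.eval (i : ℂ) • pr i x := by
    conv_lhs => rw [← S.sum x]
    rw [map_sum, Finset.sum_eq_single i]
    · exact hE R i
    · intro j hj hji
      rw [hE, hR1 j hj hji, zero_smul]
    · intro h0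
      exact absurd hi h0
  have h2 : pr i x = (R.eval (i : ℂ))⁻¹ • Polynomial.aeval A R x := by
    rw [h1, smul_smul, inv_mul_cancel₀ hR0, one_smul]
  rw [h2]
  exact Q.smul_mem _ (hA R x hx)

end

theorem hBAS : StBAS.{u} := by
  intro g _ _ _ e h f N pr S
  have hh : pr 0 h = h := S.fix 0 h (by rw [lie_self]; simp)
  have he : pr 2 e = e := by
    apply S.fix 2 e
    rw [S.tri.lie_h_e_nsmul]
    push_cast
    rw [← Nat.cast_smul_eq_nsmul ℂ]
    norm_num
  refine
    { brge := ?_, brle := brle' S, cpl := ?_, gemono := ?_, lemono := ?_, gebot := ?_, getop := ?_,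
      lebot := lebot' S, letop := letop' S, prge := fun i j x => prge' S i j x,
      prle := fun i j x => prle' S i j x, kge := ?_, kle := ?_, h0 := ?_, e2 := ?_, N2 := ?_,
      stab := stab' S, nil := nil' S, nil0 := ?_ }
  · intro i j x y hx hy
    rw [mem_ge] at *
    intro k hk
    refine br_zero S k x y fun a b hab => ?_
    by_cases h0 : a < i
    · exact Or.inl (hx a h0)
    · exact Or.inr (hy b (by omega))
  · intro j
    rw [isCompl_iff, codisjoint_iff]
    constructor
    · rw [Submodule.disjoint_def]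
      intro x hx hx'
      rw [mem_ge] at hx
      rw [mem_le] at hx'
      refine zero_of S fun i => ?_
      by_cases hi : i < j
      · exact hx i hi
      · exact hx' i (by omega)
    · rw [eq_top_iff]
      intro x _
      rw [← S.sum x]
      refine Submodule.sum_mem _ fun i _ => ?_
      by_cases hi : j ≤ i
      · exact Submodule.mem_sup_left (prge' S i j x hi)
      · exact Submodule.mem_sup_right (prle' S i (j - 1) x (by omega))
  · intro i j hij x hx
    rw [mem_ge] at *
    exact fun k hk => hx k (by omega)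
  · intro i j hij x hx
    rw [mem_le] at *
    exact fun k hk => hx k (by omega)
  · intro j hj
    rw [eq_bot_iff]
    intro x hx
    rw [mem_ge] at hx
    rw [Submodule.mem_bot]
    refine zero_of S fun i => ?_
    by_cases hi : i ∈ Finset.Icc (-(N : ℤ)) N
    · rw [Finset.mem_Icc] at hi
      exact hx i (by omega)
    · exact pr_out S hi x
  · intro j hj
    rw [eq_top_iff]
    intro x _
    rw [mem_ge]
    intro i hi
    exact pr_out S (by rw [Finset.mem_Icc]; omega) x
  · intro i j x y hx hy hij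
    rw [mem_ge] at *
    refine kil_zero S x y fun a b hab => ?_
    by_cases h0 : a < i
    · exact Or.inl (hx a h0)
    · exact Or.inr (hy b (by omega))
  · intro i j x y hx hy hij
    rw [mem_le] at *
    refine kil_zero S x y fun a b hab => ?_
    by_cases h0 : i < a
    · exact Or.inl (hx a h0)
    · exact Or.inr (hy b (by omega))
  · rw [← hh]
    exact ⟨prge' S 0 0 h le_rfl, prle' S 0 0 h le_rfl⟩
  · rw [← he]
    exact ⟨prge' S 2 2 e le_rfl, prle' S 2 2 e le_rfl⟩
  · by_contra h0
    have h1 : pr 2 = 0 := S.top 2 (by rw [abs_of_pos (by norm_num)]; omega)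
    rw [h1, LinearMap.zero_apply] at he
    apply S.tri.h_ne_zero
    rw [← S.tri.lie_e_f, ← he, zero_lie]
  · intro u hu x
    have h1 := nil' S u hu (2 * N + 1) N x (by rw [letop' S N le_rfl]; exact Submodule.mem_top)
    rw [lebot' S _ (by push_cast; omega), Submodule.mem_bot] at h1
    exact h1

end Pool.Agent.Helper16.KPG
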